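import Pool.Agent.HF.Stmts

set_option autoImplicit false

/-!
# Squad HF, module ELL: expansions exist
-/

namespace Pool.Agent.HF.H73

open Pool.Agent.HF HahnSeries

noncomputable section

/-! ### Finite series -/

section fin

variable {D : Type} [DivisionRing D]

/-- The sum of the coefficients. -/
def ev (P : HahnSeries ℤ D) : D := ∑ᶠ i, P.coeff i

lemma ev_single (i : ℤ) (a : D) : ev (single i a) = a := by
  unfold ev
  rw [finsum_eq_single _ i]
  · simp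
  · intro j hj
    exact coeff_single_of_ne hj

lemma ev_zero : ev (0 : HahnSeries ℤ D) = 0 := by
  unfold ev
  simp

lemma ev_add {P Q : HahnSeries ℤ D} (hP : P.support.Finite) (hQ : Q.support.Finite) :
    ev (P + Q) = ev P + ev Q := by
  unfold ev
  rw [← finsum_add_distrib hP hQ]
  rfl

lemma fin_single (i : ℤ) (a : D) : (single i a : HahnSeries ℤ D).support.Finite :=
  (Set.finite_singleton i).subset (by
    intro j hj
    by_contra hcon
    exact hj (coeff_single_of_ne hcon))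

lemma fin_add {P Q : HahnSeries ℤ D} (hP : P.support.Finite) (hQ : Q.support.Finite) :
    (P + Q).support.Finite :=
  (hP.union hQ).subset (support_add_subset P Q)

lemma fin_neg {P : HahnSeries ℤ D} (hP : P.support.Finite) : (-P).support.Finite :=
  hP.subset (by
    intro j hj
    simpa using hj)

lemma eq_sum {P : HahnSeries ℤ D} (hP : P.support.Finite) :
    P = ∑ i ∈ hP.toFinset, single i (P.coeff i) := by
  ext j
  rw [coeff_sum]
  by_cases hj : P.coeff j = 0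
  · rw [hj]
    refine (Finset.sum_eq_zero fun i _ => ?_).symm
    by_cases hij : j = i
    · subst hij
      rw [hj]
      simp
    · exact coeff_single_of_ne hij
  · rw [Finset.sum_eq_single j]
    · simp
    · intro i _ hij
      exact coeff_single_of_ne hij.symm
    · intro hj'
      exact absurd (hP.mem_toFinset.2 hj) hj'

lemma fin_ind {p : HahnSeries ℤ D → Prop} {P : HahnSeries ℤ D} (hP : P.support.Finite)
    (h0 : p 0) (h1 : ∀ i, p (single i (P.coeff i))) (h2 : ∀ A B, p A → p B → p (A + B)) :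
    p P := by
  rw [eq_sum hP]
  exact Finset.sum_induction _ p h2 h0 fun i _ => h1 i

end fin

variable {G D : Type} [Group G] [DivisionRing D] {sg : G →* D} {H : Subgroup G}

lemma sg_ne (sg : G →* D) (g : G) : sg g ≠ 0 := by
  intro h
  have : sg g * sg g⁻¹ = 1 := by rw [← map_mul, mul_inv_cancel, map_one]
  rw [h, zero_mul] at this
  exact zero_ne_one this

/-- The finite series whose coefficient of degree `i` is in `KE t ^ i`. -/
def Ls (X : Chi sg H) : Set (HahnSeries ℤ D) :=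
  {P | P.support.Finite ∧ ∀ i, P.coeff i * (sg X.t) ^ (-i) ∈ DS sg {x | x ∈ H ∧ X.c x = 0}}

section ls

variable (X : Chi sg H)

lemma ls_zero : (0 : HahnSeries ℤ D) ∈ Ls X :=
  ⟨by simp, fun i => by
    rw [coeff_zero, zero_mul]
    exact zero_mem _⟩

lemma ls_add {P Q : HahnSeries ℤ D} (hP : P ∈ Ls X) (hQ : Q ∈ Ls X) : P + Q ∈ Ls X :=
  ⟨fin_add hP.1 hQ.1, fun i => by
    rw [coeff_add, add_mul]
    exact add_mem (hP.2 i) (hQ.2 i)⟩

lemma ls_neg {P : HahnSeries ℤ D} (hP : P ∈ Ls X) : -P ∈ Ls X :=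
  ⟨fin_neg hP.1, fun i => by
    rw [coeff_neg, neg_mul]
    exact neg_mem (hP.2 i)⟩

lemma ls_single {i : ℤ} {a : D}
    (h : a * (sg X.t) ^ (-i) ∈ DS sg {x | x ∈ H ∧ X.c x = 0}) : single i a ∈ Ls X := by
  refine ⟨fin_single i a, fun j => ?_⟩
  by_cases hij : j = i
  · subst hij
    rw [coeff_single_same]
    exact h
  · rw [coeff_single_of_ne hij, zero_mul]
    exact zero_mem _

lemma ls_sum {ι : Type} (s : Finset ι) (f : ι → HahnSeries ℤ D) (h : ∀ i ∈ s, f i ∈ Ls X) :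
    ∑ i ∈ s, f i ∈ Ls X ∧ ev (∑ i ∈ s, f i) = ∑ i ∈ s, ev (f i) := by
  classical
  induction s using Finset.induction_on with
  | empty => simpa using ⟨ls_zero X, ev_zero⟩
  | insert a s ha ih =>
    have h1 := ih fun i hi => h i (Finset.mem_insert_of_mem hi)
    have h2 := h a (Finset.mem_insert_self a s)
    rw [Finset.sum_insert ha, Finset.sum_insert ha]
    exact ⟨ls_add X h2 h1.1, by rw [ev_add h2.1 h1.1.1, h1.2]⟩

lemma single_mul (hLpr : LprStmt) {i j : ℤ} {a b : D}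
    (ha : a * (sg X.t) ^ (-i) ∈ DS sg {x | x ∈ H ∧ X.c x = 0})
    (hb : b * (sg X.t) ^ (-j) ∈ DS sg {x | x ∈ H ∧ X.c x = 0}) :
    (a * b) * (sg X.t) ^ (-(i + j)) ∈ DS sg {x | x ∈ H ∧ X.c x = 0} := by
  have hne := sg_ne sg X.t
  have h1 := (hLpr G D sg H X).2.2 _ hb i
  have h2 := mul_mem ha h1
  have h3 : a * (sg X.t) ^ (-i) * ((sg X.t) ^ i * (b * (sg X.t) ^ (-j)) * (sg X.t) ^ (-i)) =
      (a * b) * (sg X.t) ^ (-(i + j)) := by
    have h4 : (sg X.t) ^ (-i) * (sg X.t) ^ i = 1 := by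
      rw [← zpow_add₀ hne, neg_add_cancel, zpow_zero]
    have h5 : (sg X.t) ^ (-j) * (sg X.t) ^ (-i) = (sg X.t) ^ (-(i + j)) := by
      rw [← zpow_add₀ hne]
      congr 1
      ring
    calc a * (sg X.t) ^ (-i) * ((sg X.t) ^ i * (b * (sg X.t) ^ (-j)) * (sg X.t) ^ (-i)) =
        a * ((sg X.t) ^ (-i) * (sg X.t) ^ i) * b * ((sg X.t) ^ (-j) * (sg X.t) ^ (-i)) := by
          simp only [mul_assoc]
      _ = (a * b) * (sg X.t) ^ (-(i + j)) := by rw [h4, h5, mul_one]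
  rwa [h3] at h2

lemma ls_mul (hLpr : LprStmt) {P Q : HahnSeries ℤ D} (hP : P ∈ Ls X) (hQ : Q ∈ Ls X) :
    P * Q ∈ Ls X ∧ ev (P * Q) = ev P * ev Q := by
  have key : P ∈ Ls X ∧ P * Q ∈ Ls X ∧ ev (P * Q) = ev P * ev Q := by
    refine fin_ind (p := fun A => A ∈ Ls X ∧ A * Q ∈ Ls X ∧ ev (A * Q) = ev A * ev Q) hP.1
      ?_ ?_ ?_
    · refine ⟨ls_zero X, ?_, ?_⟩
      · rw [zero_mul]
        exact ls_zero X
      · rw [zero_mul, ev_zero, zero_mul]
    · intro i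
      have key2 : Q ∈ Ls X ∧ single i (P.coeff i) * Q ∈ Ls X ∧
          ev (single i (P.coeff i) * Q) = ev (single i (P.coeff i)) * ev Q := by
        refine fin_ind (p := fun B => B ∈ Ls X ∧ single i (P.coeff i) * B ∈ Ls X ∧
          ev (single i (P.coeff i) * B) = ev (single i (P.coeff i)) * ev B) hQ.1 ?_ ?_ ?_
        · refine ⟨ls_zero X, ?_, ?_⟩
          · rw [mul_zero]
            exact ls_zero X
          · rw [mul_zero, ev_zero, mul_zero]
        · intro j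
          refine ⟨ls_single X (hQ.2 j), ?_, ?_⟩
          · rw [single_mul_single]
            exact ls_single X (single_mul X hLpr (hP.2 i) (hQ.2 j))
          · rw [single_mul_single, ev_single, ev_single, ev_single]
        · rintro A B ⟨h1, h2, h3⟩ ⟨h4, h5, h6⟩
          refine ⟨ls_add X h1 h4, ?_, ?_⟩
          · rw [mul_add]
            exact ls_add X h2 h5
          · rw [mul_add, ev_add h2.1 h5.1, h3, h6, ev_add h1.1 h4.1, mul_add]
      exact ⟨ls_single X (hP.2 i), key2.2⟩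
    · rintro A B ⟨h1, h2, h3⟩ ⟨h4, h5, h6⟩
      refine ⟨ls_add X h1 h4, ?_, ?_⟩
      · rw [add_mul]
        exact ls_add X h2 h5
      · rw [add_mul, ev_add h2.1 h5.1, h3, h6, ev_add h1.1 h4.1, add_mul]
  exact key.2

lemma ls_one : (1 : HahnSeries ℤ D) ∈ Ls X ∧ ev (1 : HahnSeries ℤ D) = 1 := by
  have h : (1 : HahnSeries ℤ D) = single 0 1 := rfl
  rw [h]
  refine ⟨ls_single X ?_, ev_single 0 1⟩
  rw [neg_zero, zpow_zero, mul_one]
  exact one_mem _

lemma ls_ker {x : D} (hx : x ∈ DS sg {x | x ∈ H ∧ X.c x = 0}) : single 0 x ∈ Ls X := by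
  refine ls_single X ?_
  rw [neg_zero, zpow_zero, mul_one]
  exact hx

lemma ls_sg (hLpr : LprStmt) {h : G} (hh : h ∈ H) : single (X.c h) (sg h) ∈ Ls X := by
  obtain ⟨d, hd, he⟩ := (hLpr G D sg H X).1 h hh
  refine ls_single X ?_
  have h1 : sg h * (sg X.t) ^ (-X.c h) = d := by
    rw [he, mul_assoc, ← zpow_add₀ (sg_ne sg X.t), add_neg_cancel, zpow_zero, mul_one]
  rw [h1]
  exact hd

lemma ev_inj {P : HahnSeries ℤ D} (hP : P ∈ Ls X) (h : ev P = 0) : P = 0 := by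
  have hne := sg_ne sg X.t
  have hfin : (Function.support fun i => P.coeff i * (sg X.t) ^ (-i)).Finite :=
    hP.1.subset (by
      intro i hi hcon
      exact hi (by simp only [hcon, zero_mul]))
  obtain ⟨f, hf⟩ : ∃ f : ℤ →₀ D, ∀ i, f i = P.coeff i * (sg X.t) ^ (-i) :=
    ⟨Finsupp.ofSupportFinite _ hfin, fun i => rfl⟩
  have h1 : ∀ i, f i * (sg X.t) ^ i = P.coeff i := by
    intro i
    rw [hf, mul_assoc, ← zpow_add₀ hne, neg_add_cancel, zpow_zero, mul_one]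
  have h2 : (f.sum fun i d => d * (sg X.t) ^ i) = ev P := by
    unfold ev Finsupp.sum
    rw [finsum_eq_sum_of_support_subset (s := f.support)]
    · exact Finset.sum_congr rfl fun i _ => h1 i
    · intro i hi
      rw [Finset.mem_coe, Finsupp.mem_support_iff]
      intro hcon
      apply hi
      rw [← h1 i, hcon, zero_mul]
  have h3 := X.ind f (fun i => by rw [hf]; exact hP.2 i) (by rw [h2, h])
  ext i
  rw [← h1 i, h3]
  simp

lemma ev_inj2 {P Q : HahnSeries ℤ D} (hP : P ∈ Ls X) (hQ : Q ∈ Ls X) (h : ev P = ev Q) :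
    P = Q := by
  have h1 : P + -Q ∈ Ls X := ls_add X hP (ls_neg X hQ)
  have h2 : ev (P + -Q) + ev Q = ev P := by
    rw [← ev_add h1.1 hQ.1]
    congr 1
    abel
  have h3 : ev (P + -Q) = 0 := by
    rw [h] at h2
    simpa using h2
  have h4 := ev_inj X h1 h3
  have h5 : P - Q = 0 := by rw [sub_eq_add_neg]; exact h4
  exact sub_eq_zero.1 h5

lemma ev_ne {P : HahnSeries ℤ D} (hP : P ∈ Ls X) (h : P ≠ 0) : ev P ≠ 0 :=
  fun hcon => h (ev_inj X hP hcon)

lemma lp_of_ls {P : HahnSeries ℤ D} (hP : P ∈ Ls X) : ev P ∈ Lp X := by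
  have hne := sg_ne sg X.t
  have hfin : (Function.support fun i => P.coeff i * (sg X.t) ^ (-i)).Finite :=
    hP.1.subset (by
      intro i hi hcon
      exact hi (by simp only [hcon, zero_mul]))
  obtain ⟨f, hf⟩ : ∃ f : ℤ →₀ D, ∀ i, f i = P.coeff i * (sg X.t) ^ (-i) :=
    ⟨Finsupp.ofSupportFinite _ hfin, fun i => rfl⟩
  have h1 : ∀ i, f i * (sg X.t) ^ i = P.coeff i := by
    intro i
    rw [hf, mul_assoc, ← zpow_add₀ hne, neg_add_cancel, zpow_zero, mul_one]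
  refine ⟨f, fun i => by rw [hf]; exact hP.2 i, ?_⟩
  unfold ev Finsupp.sum
  rw [finsum_eq_sum_of_support_subset (s := f.support)]
  · exact Finset.sum_congr rfl fun i _ => (h1 i).symm
  · intro i hi
    rw [Finset.mem_coe, Finsupp.mem_support_iff]
    intro hcon
    apply hi
    rw [← h1 i, hcon, zero_mul]

lemma ls_of_lp {x : D} (hx : x ∈ Lp X) : ∃ P ∈ Ls X, ev P = x := by
  have hne := sg_ne sg X.t
  obtain ⟨f, hf, rfl⟩ := hx
  have h := ls_sum X f.support (fun i => single i (f i * (sg X.t) ^ i)) (by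
    intro i _
    refine ls_single X ?_
    rw [mul_assoc, ← zpow_add₀ hne, add_neg_cancel, zpow_zero, mul_one]
    exact hf i)
  refine ⟨_, h.1, ?_⟩
  rw [h.2]
  unfold Finsupp.sum
  exact Finset.sum_congr rfl fun i _ => ev_single _ _

lemma ore_l (hLpr : LprStmt) (hPor : PorStmt) {A B : HahnSeries ℤ D} (hA : A ∈ Ls X)
    (hB : B ∈ Ls X) (hB0 : B ≠ 0) : ∃ P ∈ Ls X, ∃ Q ∈ Ls X, P ≠ 0 ∧ P * A = Q * B := by
  obtain ⟨⟨p, hp, q, hq, hp0, hpq⟩, _⟩ :=
    hPor G D sg H X (ev A) (lp_of_ls X hA) (ev B) (lp_of_ls X hB) (ev_ne X hB hB0)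
  obtain ⟨P, hP, rfl⟩ := ls_of_lp X hp
  obtain ⟨Q, hQ, rfl⟩ := ls_of_lp X hq
  refine ⟨P, hP, Q, hQ, ?_, ?_⟩
  · rintro rfl
    exact hp0 ev_zero
  · have h1 := ls_mul X hLpr hP hA
    have h2 := ls_mul X hLpr hQ hB
    exact ev_inj2 X h1.1 h2.1 (by rw [h1.2, h2.2, hpq])

lemma ore_r (hLpr : LprStmt) (hPor : PorStmt) {A B : HahnSeries ℤ D} (hA : A ∈ Ls X)
    (hB : B ∈ Ls X) (hB0 : B ≠ 0) : ∃ P ∈ Ls X, ∃ Q ∈ Ls X, P ≠ 0 ∧ A * P = B * Q := by
  obtain ⟨_, p, hp, q, hq, hp0, hpq⟩ :=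
    hPor G D sg H X (ev A) (lp_of_ls X hA) (ev B) (lp_of_ls X hB) (ev_ne X hB hB0)
  obtain ⟨P, hP, rfl⟩ := ls_of_lp X hp
  obtain ⟨Q, hQ, rfl⟩ := ls_of_lp X hq
  refine ⟨P, hP, Q, hQ, ?_, ?_⟩
  · rintro rfl
    exact hp0 ev_zero
  · have h1 := ls_mul X hLpr hA hP
    have h2 := ls_mul X hLpr hB hQ
    exact ev_inj2 X h1.1 h2.1 (by rw [h1.2, h2.2, hpq])

/-! ### The relation -/

/-- `Y` is the expansion of `x`. -/
def Rl (x : D) (Y : HahnSeries ℤ D) : Prop :=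
  ∃ P ∈ Ls X, ∃ Q ∈ Ls X, P ≠ 0 ∧ ev P * x = ev Q ∧ P * Y = Q

lemma rl_ls {P : HahnSeries ℤ D} (hP : P ∈ Ls X) : Rl X (ev P) P :=
  ⟨1, (ls_one X).1, P, hP, one_ne_zero, by rw [(ls_one X).2, one_mul], one_mul P⟩

lemma rl_func (hLpr : LprStmt) (hPor : PorStmt) {x : D} {Y Y' : HahnSeries ℤ D}
    (h : Rl X x Y) (h' : Rl X x Y') : Y = Y' := by
  obtain ⟨P1, hP1, Q1, hQ1, hP10, h1, h2⟩ := h
  obtain ⟨P2, hP2, Q2, hQ2, hP20, h3, h4⟩ := h'
  obtain ⟨A, hA, B, hB, hA0, hAB⟩ := ore_l X hLpr hPor hP1 hP2 hP20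
  have h5 : A * Q1 = B * Q2 := by
    refine ev_inj2 X (ls_mul X hLpr hA hQ1).1 (ls_mul X hLpr hB hQ2).1 ?_
    rw [(ls_mul X hLpr hA hQ1).2, (ls_mul X hLpr hB hQ2).2, ← h1, ← h3, ← mul_assoc, ← mul_assoc,
      ← (ls_mul X hLpr hA hP1).2, ← (ls_mul X hLpr hB hP2).2, hAB]
  have h6 : (A * P1) * Y = (A * P1) * Y' := by
    rw [mul_assoc, h2, h5, ← h4, ← mul_assoc, ← hAB]
  exact mul_left_cancel₀ (mul_ne_zero hA0 hP10) h6

lemma rl_zero : Rl X 0 0 := by
  have := rl_ls X (ls_zero X)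
  rwa [ev_zero] at this

lemma rl_one : Rl X 1 1 := by
  have := rl_ls X (ls_one X).1
  rwa [(ls_one X).2] at this

lemma rl_sg (hLpr : LprStmt) {h : G} (hh : h ∈ H) : Rl X (sg h) (single (X.c h) (sg h)) := by
  have := rl_ls X (ls_sg X hLpr hh)
  rwa [ev_single] at this

lemma rl_ker {x : D} (hx : x ∈ DS sg {x | x ∈ H ∧ X.c x = 0}) : Rl X x (single 0 x) := by
  have := rl_ls X (ls_ker X hx)
  rwa [ev_single] at this

lemma rl_add (hLpr : LprStmt) (hPor : PorStmt) {x y : D} {Y Z : HahnSeries ℤ D}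
    (h : Rl X x Y) (h' : Rl X y Z) : Rl X (x + y) (Y + Z) := by
  obtain ⟨P1, hP1, Q1, hQ1, hP10, h1, h2⟩ := h
  obtain ⟨P2, hP2, Q2, hQ2, hP20, h3, h4⟩ := h'
  obtain ⟨A, hA, B, hB, hA0, hAB⟩ := ore_l X hLpr hPor hP1 hP2 hP20
  have hAP := ls_mul X hLpr hA hP1
  have hBP := ls_mul X hLpr hB hP2
  have hAQ := ls_mul X hLpr hA hQ1
  have hBQ := ls_mul X hLpr hB hQ2
  refine ⟨A * P1, hAP.1, A * Q1 + B * Q2, ls_add X hAQ.1 hBQ.1, mul_ne_zero hA0 hP10, ?_, ?_⟩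
  · rw [ev_add hAQ.1.1 hBQ.1.1, hAQ.2, hBQ.2, mul_add]
    congr 1
    · rw [hAP.2, mul_assoc, h1]
    · rw [hAB, hBP.2, mul_assoc, h3]
  · rw [mul_add]
    congr 1
    · rw [mul_assoc, h2]
    · rw [hAB, mul_assoc, h4]

lemma rl_neg {x : D} {Y : HahnSeries ℤ D} (h : Rl X x Y) : Rl X (-x) (-Y) := by
  obtain ⟨P1, hP1, Q1, hQ1, hP10, h1, h2⟩ := h
  refine ⟨P1, hP1, -Q1, ls_neg X hQ1, hP10, ?_, ?_⟩
  · have h3 : ev (-Q1) = - ev Q1 := by
      have := ev_add (ls_neg X hQ1).1 hQ1.1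
      rw [neg_add_cancel, ev_zero] at this
      exact eq_neg_of_add_eq_zero_left this.symm
    rw [h3, mul_neg, h1]
  · rw [mul_neg, h2]

lemma rl_mul (hLpr : LprStmt) (hPor : PorStmt) {x y : D} {Y Z : HahnSeries ℤ D}
    (h : Rl X x Y) (h' : Rl X y Z) : Rl X (x * y) (Y * Z) := by
  obtain ⟨P1, hP1, Q1, hQ1, hP10, h1, h2⟩ := h
  obtain ⟨P2, hP2, Q2, hQ2, hP20, h3, h4⟩ := h'
  obtain ⟨A, hA, B, hB, hA0, hAB⟩ := ore_l X hLpr hPor hQ1 hP2 hP20
  have hAP := ls_mul X hLpr hA hP1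
  have hBQ := ls_mul X hLpr hB hQ2
  refine ⟨A * P1, hAP.1, B * Q2, hBQ.1, mul_ne_zero hA0 hP10, ?_, ?_⟩
  · calc ev (A * P1) * (x * y) = ev A * (ev P1 * x) * y := by rw [hAP.2]; simp only [mul_assoc]
      _ = ev (A * Q1) * y := by rw [h1, (ls_mul X hLpr hA hQ1).2]
      _ = ev (B * P2) * y := by rw [hAB]
      _ = ev B * (ev P2 * y) := by rw [(ls_mul X hLpr hB hP2).2, mul_assoc]
      _ = ev (B * Q2) := by rw [h3, hBQ.2]
  · calc A * P1 * (Y * Z) = A * (P1 * Y) * Z := by simp only [mul_assoc]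
      _ = B * P2 * Z := by rw [h2, hAB]
      _ = B * Q2 := by rw [mul_assoc, h4]

lemma rl_ne {x : D} {Y : HahnSeries ℤ D} (h : Rl X x Y) (hx : x ≠ 0) : Y ≠ 0 := by
  obtain ⟨P1, hP1, Q1, hQ1, hP10, h1, h2⟩ := h
  rintro rfl
  rw [mul_zero] at h2
  rw [← h2, ev_zero] at h1
  exact (mul_ne_zero (ev_ne X hP1 hP10) hx) h1

lemma rl_inv {x : D} {Y Z : HahnSeries ℤ D} (h : Rl X x Y) (hx : x ≠ 0) (hYZ : Y * Z = 1) :
    Rl X x⁻¹ Z := by
  obtain ⟨P1, hP1, Q1, hQ1, hP10, h1, h2⟩ := h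
  refine ⟨Q1, hQ1, P1, hP1, ?_, ?_, ?_⟩
  · rintro rfl
    rw [ev_zero] at h1
    exact (mul_ne_zero (ev_ne X hP1 hP10) hx) h1
  · rw [← h1, mul_assoc, mul_inv_cancel₀ hx, mul_one]
  · rw [← h2, mul_assoc, hYZ, mul_one]

/-- Expansions of elements of the skew field generated by a subgroup. -/
lemma rl_ex (hHls : HlsStmt) (hLpr : LprStmt) (hPor : PorStmt) (S : Subgroup G) (hS : S ≤ H)
    (x : D) (hx : x ∈ DS sg (S : Set G)) :
    ∃ Y, Rl X x Y ∧ ∀ i, Y.coeff i ∈ DS sg (S : Set G) := by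
  unfold DS at hx
  induction hx using Subfield.closure_induction with
  | mem x hx =>
    obtain ⟨g, hg, rfl⟩ := hx
    refine ⟨_, rl_sg X hLpr (hS hg), fun i => ?_⟩
    by_cases hi : i = X.c g
    · subst hi
      rw [coeff_single_same]
      exact Subfield.subset_closure ⟨g, hg, rfl⟩
    · rw [coeff_single_of_ne hi]
      exact zero_mem _
  | one =>
    refine ⟨1, rl_one X, fun i => ?_⟩
    rw [coeff_one]
    split_ifs
    · exact one_mem _
    · exact zero_mem _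
  | add x y _ _ hx hy =>
    obtain ⟨Y, hY, hY'⟩ := hx
    obtain ⟨Z, hZ, hZ'⟩ := hy
    exact ⟨Y + Z, rl_add X hLpr hPor hY hZ, fun i => by
      rw [coeff_add]
      exact add_mem (hY' i) (hZ' i)⟩
  | neg x _ hx =>
    obtain ⟨Y, hY, hY'⟩ := hx
    exact ⟨-Y, rl_neg X hY, fun i => by
      rw [coeff_neg]
      exact neg_mem (hY' i)⟩
  | mul x y _ _ hx hy =>
    obtain ⟨Y, hY, hY'⟩ := hx
    obtain ⟨Z, hZ, hZ'⟩ := hy
    exact ⟨Y * Z, rl_mul X hLpr hPor hY hZ, fun i => by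
      rw [coeff_mul]
      exact sum_mem fun p _ => mul_mem (hY' _) (hZ' _)⟩
  | inv x _ hx =>
    obtain ⟨Y, hY, hY'⟩ := hx
    by_cases h0 : x = 0
    · subst h0
      rw [inv_zero]
      exact ⟨0, rl_zero X, fun i => by
        rw [coeff_zero]
        exact zero_mem _⟩
    · -- the lift to the subfield
      let F : Subfield D := DS sg (S : Set G)
      let Y1 : HahnSeries ℤ F :=
        { coeff := fun i => ⟨Y.coeff i, hY' i⟩
          isPWO_support' := Y.isPWO_support.mono (by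
            intro i hi hcon
            exact hi (Subtype.ext hcon)) }
      have hmap : ∀ A : HahnSeries ℤ F, ∀ i, (A.map F.subtype).coeff i = (A.coeff i : D) :=
        fun A i => rfl
      have hY1 : Y1.map F.subtype = Y := by
        ext i
        rw [hmap]
      have hY10 : Y1 ≠ 0 := by
        intro hcon
        apply rl_ne X hY h0
        rw [← hY1, hcon]
        ext i
        rw [hmap]
        simp
      obtain ⟨Z1, hZ1, _⟩ := hHls F Y1 hY10
      have hYZ : Y * Z1.map F.subtype = 1 := by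
        have h1 : (Y1 * Z1).map F.subtype = Y1.map F.subtype * Z1.map F.subtype :=
          HahnSeries.map_mul (F.subtype : F →ₙ+* D)
        rw [hZ1, hY1] at h1
        rw [← h1]
        ext i
        rw [hmap, coeff_one, coeff_one]
        split_ifs <;> simp
      exact ⟨Z1.map F.subtype, rl_inv X hY h0 hYZ, fun i => by
        rw [hmap]
        exact (Z1.coeff i).2⟩

/-- Common left denominators. -/
lemma den_l (hHls : HlsStmt) (hLpr : LprStmt) (hPor : PorStmt) (r : ℕ) (x : Fin r → D)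
    (hx : ∀ m, x m ∈ DS sg (H : Set G)) :
    ∃ P ∈ Ls X, P ≠ 0 ∧ ∀ m, ∃ Q ∈ Ls X, ev P * x m = ev Q := by
  induction r with
  | zero => exact ⟨1, (ls_one X).1, one_ne_zero, fun m => m.elim0⟩
  | succ r ih =>
    obtain ⟨P1, hP1, hP10, h1⟩ := ih (fun m => x m.castSucc) fun m => hx _
    obtain ⟨Y, ⟨P2, hP2, Q2, hQ2, hP20, h2, _⟩, _⟩ :=
      rl_ex X hHls hLpr hPor H le_rfl _ (hx (Fin.last r))
    obtain ⟨A, hA, B, hB, hA0, hAB⟩ := ore_l X hLpr hPor hP1 hP2 hP20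
    have hAP := ls_mul X hLpr hA hP1
    have hBP := ls_mul X hLpr hB hP2
    refine ⟨A * P1, hAP.1, mul_ne_zero hA0 hP10, fun m => ?_⟩
    induction m using Fin.lastCases with
    | last =>
      refine ⟨B * Q2, (ls_mul X hLpr hB hQ2).1, ?_⟩
      rw [hAB, hBP.2, mul_assoc, h2, (ls_mul X hLpr hB hQ2).2]
    | cast m =>
      obtain ⟨Q, hQ, h3⟩ := h1 m
      refine ⟨A * Q, (ls_mul X hLpr hA hQ).1, ?_⟩
      rw [hAP.2, mul_assoc, h3, (ls_mul X hLpr hA hQ).2]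

/-- Common right denominators. -/
lemma den_r (hHls : HlsStmt) (hLpr : LprStmt) (hPor : PorStmt) (r : ℕ) (x : Fin r → D)
    (hx : ∀ m, x m ∈ DS sg (H : Set G)) :
    ∃ P ∈ Ls X, P ≠ 0 ∧ ∀ m, ∃ Q ∈ Ls X, x m * ev P = ev Q := by
  induction r with
  | zero => exact ⟨1, (ls_one X).1, one_ne_zero, fun m => m.elim0⟩
  | succ r ih =>
    obtain ⟨P1, hP1, hP10, h1⟩ := ih (fun m => x m.castSucc) fun m => hx _
    obtain ⟨Y, ⟨P3, hP3, Q3, hQ3, hP30, h4, _⟩, _⟩ :=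
      rl_ex X hHls hLpr hPor H le_rfl _ (hx (Fin.last r))
    -- `x = P3⁻¹ Q3 = Q2 P2⁻¹`
    obtain ⟨P2, hP2, Q2, hQ2, hP20, h5⟩ := ore_r X hLpr hPor hQ3 hP3 hP30
    have h2 : x (Fin.last r) * ev P2 = ev Q2 := by
      apply mul_left_cancel₀ (ev_ne X hP3 hP30)
      rw [← mul_assoc, h4, ← (ls_mul X hLpr hQ3 hP2).2, h5, (ls_mul X hLpr hP3 hQ2).2]
    obtain ⟨A, hA, B, hB, hA0, hAB⟩ := ore_r X hLpr hPor hP1 hP2 hP20
    have hAP := ls_mul X hLpr hP1 hA
    have hBP := ls_mul X hLpr hP2 hB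
    refine ⟨P1 * A, hAP.1, mul_ne_zero hP10 hA0, fun m => ?_⟩
    induction m using Fin.lastCases with
    | last =>
      refine ⟨Q2 * B, (ls_mul X hLpr hQ2 hB).1, ?_⟩
      rw [hAB, hBP.2, ← mul_assoc, h2, (ls_mul X hLpr hQ2 hB).2]
    | cast m =>
      obtain ⟨Q, hQ, h3⟩ := h1 m
      refine ⟨Q * A, (ls_mul X hLpr hQ hA).1, ?_⟩
      rw [hAP.2, ← mul_assoc, h3, (ls_mul X hLpr hQ hA).2]

lemma ev_mem {P : HahnSeries ℤ D} (hP : P ∈ Ls X) : ev P ∈ DS sg (H : Set G) := by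
  have hne := sg_ne sg X.t
  have hmono : DS sg {x | x ∈ H ∧ X.c x = 0} ≤ DS sg (H : Set G) :=
    Subfield.closure_mono (Set.image_mono fun x hx => hx.1)
  have ht : sg X.t ∈ DS sg (H : Set G) := Subfield.subset_closure ⟨X.t, X.t_mem, rfl⟩
  unfold ev
  rw [finsum_eq_sum_of_support_subset (s := hP.1.toFinset)]
  · refine sum_mem fun i _ => ?_
    have h1 : P.coeff i = P.coeff i * (sg X.t) ^ (-i) * (sg X.t) ^ i := by
      rw [mul_assoc, ← zpow_add₀ hne, neg_add_cancel, zpow_zero, mul_one]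
    rw [h1]
    exact mul_mem (hmono (hP.2 i)) (zpow_mem ht i)
  · intro i hi
    rw [Finset.mem_coe, Set.Finite.mem_toFinset]
    exact hi

end ls

theorem ell (hHls : HlsStmt) (hLpr : LprStmt) (hPor : PorStmt) : EllStmt := by
  classical
  rintro G D _ _ sg H ⟨X⟩
  let L : D → HahnSeries ℤ D := fun x => if h : ∃ Y, Rl X x Y then h.choose else 0
  have hL : ∀ {x : D} {Y : HahnSeries ℤ D}, Rl X x Y → L x = Y := by
    intro x Y h
    have h1 : ∃ Y, Rl X x Y := ⟨Y, h⟩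
    have h2 : L x = h1.choose := dif_pos h1
    rw [h2]
    exact rl_func X hLpr hPor h1.choose_spec h
  have hR : ∀ x ∈ DS sg (H : Set G), Rl X x (L x) := by
    intro x hx
    obtain ⟨Y, hY, _⟩ := rl_ex X hHls hLpr hPor H le_rfl x hx
    rw [hL hY]
    exact hY
  have hPl : ∀ P ∈ Ls X, Pl L (ev P) := by
    intro P hP
    have h1 := hL (rl_ls X hP)
    unfold Pl
    rw [h1]
    exact ⟨hP.1, rfl⟩
  exact ⟨{
    c := X.c
    c_mul := X.c_mul
    t := X.t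
    t_mem := X.t_mem
    t_one := X.t_one
    L := L
    L_one := hL (rl_one X)
    L_add := fun x hx y hy => hL (rl_add X hLpr hPor (hR x hx) (hR y hy))
    L_mul := fun x hx y hy => hL (rl_mul X hLpr hPor (hR x hx) (hR y hy))
    L_inj := fun x hx h => by
      by_contra h0
      exact rl_ne X (hR x hx) h0 h
    L_sg := fun h hh => hL (rl_sg X hLpr hh)
    L_ker := fun x hx => hL (rl_ker X hx)
    L_sub := fun S hS x hx i => by
      obtain ⟨Y, hY, h1⟩ := rl_ex X hHls hLpr hPor S hS x hx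
      rw [hL hY]
      exact h1 i
    left := fun r x hx => by
      obtain ⟨P, hP, hP0, h1⟩ := den_l X hHls hLpr hPor r x hx
      refine ⟨ev P, ev_mem X hP, ev_ne X hP hP0, hPl P hP, fun m => ?_⟩
      obtain ⟨Q, hQ, h2⟩ := h1 m
      rw [h2]
      exact hPl Q hQ
    right := fun r x hx => by
      obtain ⟨P, hP, hP0, h1⟩ := den_r X hHls hLpr hPor r x hx
      refine ⟨ev P, ev_mem X hP, ev_ne X hP hP0, hPl P hP, fun m => ?_⟩
      obtain ⟨Q, hQ, h2⟩ := h1 m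
      rw [h2]
      exact hPl Q hQ }⟩

end

end Pool.Agent.HF.H73
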